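import Mathlib
import Pool.Agent.Helper35.PO.Tools

/-!
# PT-0: purity of the level of the prime two (`r = 2`, odd `p`, `q`), statements of the leaves

`Ob`, `Mb`, `Nb` are `Od`, `Mx`, `Nd` of `Helper35/PO/Defs.lean` without the hypotheses `3 ≤ r` and
`r ∣ K`.  All other definitions are those of `Helper35/PO/Defs.lean`.
-/

set_option autoImplicit false

namespace Pool.Agent.Helper92.PT

open Pool.Agent.Helper92.SS
open Pool.Agent.Helper92.PU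
open Pool.Agent.Helper48.PU
open Pool.Agent.Helper35.PO

/-- The standing hypotheses, without `3 ≤ r` and `r ∣ K`. -/
structure Ob (p n q m : ℕ) {r : ℕ} (ca cl : ℤ × ℤ → ZMod r) (A L : Finset (ℤ × ℤ)) : Prop where
  hp : p.Prime
  hq : q.Prime
  hr : r.Prime
  pq : p ≠ q
  rp : r ≠ p
  rq : r ≠ q
  cp : CP p n q m ca cl A L
  ne : A.Nonempty

/-- A state without moves (the structure `Mx` over `Ob`). -/
structure Mb (p n q m : ℕ) {r : ℕ} (ca cl : ℤ × ℤ → ZMod r) (A L : Finset (ℤ × ℤ)) (l : ℤ × ℤ)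
    (f g : ℤ × ℤ → ℕ) : Prop where
  od : Ob p n q m ca cl A L
  hl : l ∈ L
  st : St p n q m ca A L l f g
  /-- the classes of `L` are `p`-branching -/
  br1 : ∀ a ∈ A, f a < n → Br1 p q L l (f a) (g a)
  br2 : ∀ a ∈ A, g a < m → Br2 p q L l (f a) (g a)
  /-- no full `p`-line of cells of one colour -/
  nl1 : ∀ a ∈ A, f a < n → ∃ s : ℤ, ∀ b ∈ A, ca b = ca a →
    (p : ℤ) ^ (n - f a) ∣ b.1 - (a.1 + s * (p : ℤ) ^ (n - f a - 1)) →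
    (q : ℤ) ^ (m - g a) ∣ b.2 - a.2 → ¬ (f b = f a ∧ g b = g a)
  nl2 : ∀ a ∈ A, g a < m → ∃ t : ℤ, ∀ b ∈ A, ca b = ca a →
    (p : ℤ) ^ (n - f a) ∣ b.1 - a.1 →
    (q : ℤ) ^ (m - g a) ∣ b.2 - (a.2 + t * (q : ℤ) ^ (m - g a - 1)) → ¬ (f b = f a ∧ g b = g a)
  /-- no move of a fully resonant class -/
  noF : ∀ a ∈ A, ∀ i k : ℕ, i ≤ n → k ≤ m → FRs p n q m ca A L l a i k →
    (∀ b ∈ Cn p q A a (n - i) (m - k), f b ≤ i ∧ g b ≤ k) →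
    ∀ b ∈ Cn p q A a (n - i) (m - k), f b = i ∧ g b = k

/-- A minimal node `(i, k)` with a point `a` which is not fully resonant (`Nd` over `Mb`). -/
structure Nb (p n q m : ℕ) {r : ℕ} (ca cl : ℤ × ℤ → ZMod r) (A L : Finset (ℤ × ℤ)) (l : ℤ × ℤ)
    (f g : ℤ × ℤ → ℕ) (i k : ℕ) (a : ℤ × ℤ) : Prop where
  mx : Mb p n q m ca cl A L l f g
  ha : a ∈ A
  fa : f a = i
  ga : g a = k
  nfr : ¬ Fr p n q m ca A f g a
  low : ∀ b ∈ A, f b ≤ i → g b ≤ k → ¬ (f b = i ∧ g b = k) → Fr p n q m ca A f g b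

/-- The class of `l` at the node `(i, k)` has two colours. -/
def Tc (p q : ℕ) {r : ℕ} (cl : ℤ × ℤ → ZMod r) (L : Finset (ℤ × ℤ)) (l : ℤ × ℤ) (i k : ℕ) : Prop :=
  ∃ l1 ∈ Cn p q L l i k, ∃ l2 ∈ Cn p q L l i k, cl l1 ≠ cl l2

/-! ### general leaves (copies of the proofs for `Mx`, `Nd`) -/

/-- LEAF MAX (copy of helper51's). -/
def LfMax : Prop := ∀ (p n q m r : ℕ) (ca cl : ℤ × ℤ → ZMod r) (A L : Finset (ℤ × ℤ)),
  Ob p n q m ca cl A L → ∀ l ∈ L, ∃ f g : ℤ × ℤ → ℕ, Mb p n q m ca cl A L l f g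

/-- LEAF SYM (copy of helper20's). -/
def LfSym : Prop := ∀ (p n q m r : ℕ) (ca cl : ℤ × ℤ → ZMod r) (A L : Finset (ℤ × ℤ))
  (l : ℤ × ℤ) (f g : ℤ × ℤ → ℕ) (i k : ℕ) (a : ℤ × ℤ), Nb p n q m ca cl A L l f g i k a →
  ∀ (z z' : ZMod r) (x y : ℤ), Lw p n q m ca A f g z i k x y = Lw p n q m ca A f g z' i k x y

/-- LEAF GRD (copy of helper20's). -/
def LfGrd : Prop := ∀ (p n q m r : ℕ) (ca cl : ℤ × ℤ → ZMod r) (A L : Finset (ℤ × ℤ))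
  (l : ℤ × ℤ) (f g : ℤ × ℤ → ℕ) (i k : ℕ) (a : ℤ × ℤ), Nb p n q m ca cl A L l f g i k a →
  i < n → k < m →
  -- decomposition
  (∀ (z : ZMod r) (x y : ℤ), (Cn p q (kl ca A z) (x, y) (n - i) (m - k)).card =
    Tn p n q m ca A f g z i k x y + Lw p n q m ca A f g z i k x y + Ex p n q m ca A f g z i k x y) ∧
  -- the outer part is additive in the grid of `a`
  (∀ (z : ZMod r) (x y : ℤ), (p : ℤ) ^ (n - i - 1) ∣ a.1 - x → (q : ℤ) ^ (m - k - 1) ∣ a.2 - y →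
    Adv (fun x y => (Ex p n q m ca A f g z i k x y : ℤ)) ((p : ℤ) ^ (n - i - 1))
      ((q : ℤ) ^ (m - k - 1)) x y) ∧
  -- a cell of the node fills its class
  (∀ (z : ZMod r) (x y : ℤ), Tn p n q m ca A f g z i k x y ≠ 0 →
    Tn p n q m ca A f g z i k x y * (Cn p q L l i k).card = A.card ∧
    Lw p n q m ca A f g z i k x y = 0 ∧ Ex p n q m ca A f g z i k x y = 0) ∧
  -- pairs of `Y`
  (Sm p q cl L l i k → ∀ x y : ℤ, Adv (fun x y => ((Cn p q A (x, y) (n - i) (m - k)).card : ℤ))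
    ((p : ℤ) ^ (n - i - 1)) ((q : ℤ) ^ (m - k - 1)) x y) ∧
  (Df p q cl L l i k → ∀ (z z' : ZMod r) (x y : ℤ),
    Adv (fun x y => ((Cn p q (kl ca A z) (x, y) (n - i) (m - k)).card : ℤ) -
      ((Cn p q (kl ca A z') (x, y) (n - i) (m - k)).card : ℤ))
    ((p : ℤ) ^ (n - i - 1)) ((q : ℤ) ^ (m - k - 1)) x y) ∧
  (Sm p q cl L l i k → Df p q cl L l i k → ∀ (z : ZMod r) (x y : ℤ),
    Adv (fun x y => ((Cn p q (kl ca A z) (x, y) (n - i) (m - k)).card : ℤ))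
    ((p : ℤ) ^ (n - i - 1)) ((q : ℤ) ^ (m - k - 1)) x y)

/-- LEAF FLOW (copy of helper73's). -/
def LfFlow : Prop := ∀ (p n q m r : ℕ) (ca cl : ℤ × ℤ → ZMod r) (A L : Finset (ℤ × ℤ))
  (l : ℤ × ℤ) (f g : ℤ × ℤ → ℕ) (i k : ℕ) (a : ℤ × ℤ), Nb p n q m ca cl A L l f g i k a →
  i < n → k < m → ∀ l2 ∈ Cn p q L l i k,
  (∃ l3 ∈ Cn p q L l i k, cl l3 = cl l2 ∧ ¬ (p : ℤ) ^ (i + 1) ∣ l3.1 - l2.1) →
  (∃ l3 ∈ Cn p q L l i k, cl l3 = cl l2 ∧ ¬ (q : ℤ) ^ (k + 1) ∣ l3.2 - l2.2) →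
  ∃ U : ℤ → ℤ → ℕ,
    (∀ x y : ℤ, U x y = 0 ∨
      (U x y * (kl cl (Cn p q L l i k) (cl l2)).card = A.card ∧
        (Cn p q A (x, y) (n - i) (m - k)).card = U x y ∧
        ∀ b ∈ Cn p q A (x, y) (n - i) (m - k), (f b ≤ i ∧ g b ≤ k) ∧ ¬ (f b = i ∧ g b = k))) ∧
    ∀ (z : ZMod r) (x y : ℤ), Adv (fun x y =>
      (r : ℤ) * (Lw p n q m ca A f g z i k x y : ℤ) - (U x y : ℤ))
      ((p : ℤ) ^ (n - i - 1)) ((q : ℤ) ^ (m - k - 1)) x y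

/-! ### leaves for two colours, odd `p`, `q`; no hypothesis on the parity of `K` -/

/-- LEAF BOUNDARY, `Y` with two colours. -/
def LfBd : Prop := ∀ (p n q m r : ℕ) (ca cl : ℤ × ℤ → ZMod r) (A L : Finset (ℤ × ℤ))
  (l : ℤ × ℤ) (f g : ℤ × ℤ → ℕ) (i k : ℕ) (a : ℤ × ℤ), r = 2 →
  Nb p n q m ca cl A L l f g i k a → Tc p q cl L l i k → (i = n ∨ k = m) → False

/-- LEAF BOTH. -/
def LfBoth : Prop := ∀ (p n q m r : ℕ) (ca cl : ℤ × ℤ → ZMod r) (A L : Finset (ℤ × ℤ))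
  (l : ℤ × ℤ) (f g : ℤ × ℤ → ℕ) (i k : ℕ) (a : ℤ × ℤ), r = 2 →
  Nb p n q m ca cl A L l f g i k a →
  i < n → k < m → Sm p q cl L l i k → Df p q cl L l i k → False

/-- LEAF DIFF. -/
def LfDf : Prop := ∀ (p n q m r : ℕ) (ca cl : ℤ × ℤ → ZMod r) (A L : Finset (ℤ × ℤ))
  (l : ℤ × ℤ) (f g : ℤ × ℤ → ℕ) (i k : ℕ) (a : ℤ × ℤ), r = 2 → 3 ≤ p → 3 ≤ q →
  Nb p n q m ca cl A L l f g i k a →
  i < n → k < m → ¬ Sm p q cl L l i k → Df p q cl L l i k → False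

/-- LEAF SAME, `Y` with two colours. -/
def LfSm : Prop := ∀ (p n q m r : ℕ) (ca cl : ℤ × ℤ → ZMod r) (A L : Finset (ℤ × ℤ))
  (l : ℤ × ℤ) (f g : ℤ × ℤ → ℕ) (i k : ℕ) (a : ℤ × ℤ), r = 2 → 3 ≤ p → 3 ≤ q →
  Nb p n q m ca cl A L l f g i k a → Tc p q cl L l i k →
  i < n → k < m → Sm p q cl L l i k → ¬ Df p q cl L l i k → False

end Pool.Agent.Helper92.PT
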